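import Pool.Agent.H28.RC.Interface
import Pool.Agent.H25.MZ.All0
import Pool.Agent.H25.DP.AllA

/-!
# All Artin L-functions over the rationals as members of the families: modules GD1, GD2, GD3
-/

set_option autoImplicit false

open Complex Filter Topology NumberField

namespace Pool.Agent.H25.RC

open Pool.Agent.H28.RC Pool.Agent.H25.HK Pool.Agent.H25

theorem pf_GD1 : T_ALL → ∀ (R : DL.ArtinRep) (Λ : ℂ → ℂ), IsArtin R Λ → Good Λ R.dim := by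
  intro hALL R Λ h
  obtain ⟨L, h1, -, h2⟩ := hALL R Λ h
  exact ⟨L, h1, h2⟩

/-- the part of T_ALL with the coefficients at primes -/
lemma all_prime (hALL : T_ALL) (R : DL.ArtinRep) (Λ : ℂ → ℂ) (h : IsArtin R Λ) :
    ∃ L : DL.LF, L.n = R.dim ∧
    (∀ p : Nat.Primes, ∑ j, L.h j p = LinearMap.trace ℂ R.V (R.fr p)) ∧
    ∀ z : ℂ, 0 < z.im → analyticOrderAt L.den z ≠ ⊤ ∧ analyticOrderAt L.num z ≠ ⊤ ∧
      meromorphicOrderAt Λ z + meromorphicOrderAt L.den z = meromorphicOrderAt L.num z := by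
  obtain ⟨L, h1, h3, h2⟩ := hALL R Λ h
  refine ⟨L, h1, fun p => ?_, h2⟩
  have := h3 p 1 le_rfl
  simpa only [pow_one] using this

theorem pf_GD2 : T_ALL → ∀ (R : DL.ArtinRep) (Λ : ℂ → ℂ), IsArtin R Λ → 0 < R.dim →
    MZ.Good2 Λ R.dim := by
  intro hALL R Λ hArt hdim
  obtain ⟨L, hLn, hLh, hL⟩ := all_prime hALL R Λ hArt
  refine ⟨L, hLn, ?_, hL⟩
  intro hsum
  apply MZ.T_SP_proved R hdim
  have h1 : Summable (fun p : {p : Nat.Primes // LinearMap.trace ℂ R.V (R.fr p) ≠ 0} =>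
      (fun p : {p : ℕ // p.Prime ∧ ∑ j, L.h j p ≠ 0} => (1 : ℝ) / ((p : ℕ) : ℝ))
        ⟨((p : Nat.Primes) : ℕ), (p : Nat.Primes).2, by rw [hLh]; exact p.2⟩) := by
    refine hsum.comp_injective fun p q hpq => ?_
    have := congrArg Subtype.val hpq
    exact Subtype.ext (Subtype.ext this)
  exact h1

theorem pf_GD3 : T_ALL → ∀ (R : DL.ArtinRep) (Λ : ℂ → ℂ), IsArtin R Λ → 1 ≤ R.dim →
    DP.GoodD Λ R.dim := by
  intro hALL R Λ hArt hdim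
  obtain ⟨L, hLn, hLp, hord⟩ := all_prime hALL R Λ hArt
  refine ⟨L, hLn, ?_, hord⟩
  have h2 : DP.T_DN1 := Pool.Agent.H33.DP.DN1.dn1 Pool.Agent.H80.DP.dn0
  have h3 : DP.T_DN2 := Pool.Agent.H69.DP.dn2
  have h4 : DP.T_DYD := Pool.Agent.H33.DP.DYD.dyd
  obtain ⟨S, hS⟩ := h3 R
  intro x₁ x₂ ε hx1 hx12 hε
  classical
  obtain ⟨w, hw⟩ : ∃ w : ℕ → ℝ, ∀ p, w p = if p ∈ S then 0 else (HK.spf R.K p 1 : ℝ) :=
    ⟨_, fun _ => rfl⟩
  obtain ⟨n0, hn0⟩ : ∃ n0 : ℝ, n0 = Module.finrank ℚ R.K := ⟨_, rfl⟩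
  have hn0pos : 0 < n0 := by
    rw [hn0]
    exact_mod_cast Module.finrank_pos
  have hw0 : ∀ n, 0 ≤ w n := by
    intro n
    rw [hw]
    split_ifs
    · exact le_rfl
    · exact Nat.cast_nonneg _
  obtain ⟨B, hB⟩ : ∃ B : ℕ, ∀ p ∈ S, p ≤ B := ⟨S.sup id, fun p hp => Finset.le_sup (f := id) hp⟩
  have hwin : ∀ y₁ y₂ : ℝ, 0 < y₁ → y₁ < y₂ → ∃ c T₀ : ℝ, 0 < c ∧
      ∀ T : ℝ, T₀ ≤ T → c * Real.log T ≤
        ∑ p ∈ (Finset.Ioc ⌊T ^ y₁⌋₊ ⌊T ^ y₂⌋₊).filter Nat.Prime, w p * Real.log p / p := by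
    intro y₁ y₂ hy1 hy12
    obtain ⟨c, T₀, hc, h⟩ := h2 R.K y₁ y₂ hy1 hy12
    obtain ⟨T₁, hT₁⟩ := (tendsto_atTop_atTop.1 (tendsto_rpow_atTop hy1)) (B : ℝ)
    refine ⟨c, max T₀ T₁, hc, fun T hT => ?_⟩
    refine (h T ((le_max_left _ _).trans hT)).trans (le_of_eq ?_)
    refine Finset.sum_congr rfl fun p hp => ?_
    have hBT := hT₁ T ((le_max_right _ _).trans hT)
    have hp1 := (Finset.mem_Ioc.1 (Finset.mem_filter.1 hp).1).1
    have hpS : p ∉ S := by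
      intro hmem
      have h5 : B ≤ ⌊T ^ y₁⌋₊ := Nat.le_floor hBT
      have := hB p hmem
      omega
    rw [hw, if_neg hpS]
  obtain ⟨T₀, hT₀⟩ := h4 w hw0 hwin x₁ x₂ (ε / 2) hx1 hx12 (by linarith)
  obtain ⟨T₁, hT₁⟩ := (tendsto_atTop_atTop.1 (tendsto_rpow_atTop (half_pos hε))) n0
  refine ⟨max (max T₀ T₁) 1, fun T hT => ?_⟩
  have hT0 : T₀ ≤ T := ((le_max_left _ _).trans (le_max_left _ _)).trans hT
  have hT1 : T₁ ≤ T := ((le_max_right _ _).trans (le_max_left _ _)).trans hT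
  have hTpos : 0 < T := lt_of_lt_of_le one_pos ((le_max_right _ _).trans hT)
  obtain ⟨X, hX1, hX2, hX3⟩ := hT₀ T hT0
  refine ⟨X, hX1, hX2, ?_⟩
  have hcmp : ∑ p ∈ (Finset.Ico X (2 * X)).filter Nat.Prime, w p / p ≤
      n0 * ∑ p ∈ (Finset.Ico X (2 * X)).filter Nat.Prime, ‖∑ i, L.h i p‖ ^ 2 / p := by
    rw [Finset.mul_sum]
    refine Finset.sum_le_sum fun p hp => ?_
    have hpp : p.Prime := (Finset.mem_filter.1 hp).2
    have hp0 : (0:ℝ) < p := by exact_mod_cast hpp.pos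
    rw [← mul_div_assoc]
    refine div_le_div_of_nonneg_right ?_ hp0.le
    rw [hw]
    split_ifs with hpS
    · positivity
    · by_cases h0 : HK.spf R.K p 1 = 0
      · rw [h0]
        simp only [Nat.cast_zero]
        positivity
      · have e1 := hLp ⟨p, hpp⟩
        have e2 := hS ⟨p, hpp⟩ hpS h0
        have e3 : ∑ i, L.h i p = (R.dim : ℂ) := by
          rw [← e2, ← e1]
        rw [e3, Complex.norm_natCast]
        have hd : (1:ℝ) ≤ R.dim := by exact_mod_cast hdim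
        calc (HK.spf R.K p 1 : ℝ) ≤ n0 := by rw [hn0]; exact Pool.Agent.H78.DP.DNA.spf_le R.K p hpp
          _ = n0 * 1 := (mul_one _).symm
          _ ≤ n0 * (R.dim : ℝ) ^ 2 := by
              refine mul_le_mul_of_nonneg_left ?_ hn0pos.le
              exact one_le_pow₀ hd
  have hpow : T ^ (-ε) ≤ n0⁻¹ * T ^ (-(ε / 2)) := by
    have e : T ^ (-ε) = T ^ (-(ε / 2)) * T ^ (-(ε / 2)) := by
      rw [← Real.rpow_add hTpos]
      congr 1
      ring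
    rw [e]
    refine mul_le_mul_of_nonneg_right ?_ (by positivity)
    rw [Real.rpow_neg hTpos.le]
    exact inv_anti₀ hn0pos (hT₁ T hT1)
  calc T ^ (-ε) ≤ n0⁻¹ * T ^ (-(ε / 2)) := hpow
    _ ≤ n0⁻¹ * (n0 * ∑ p ∈ (Finset.Ico X (2 * X)).filter Nat.Prime,
        ‖∑ i, L.h i p‖ ^ 2 / p) := by
        refine mul_le_mul_of_nonneg_left (hX3.trans hcmp) (by positivity)
    _ = _ := by rw [← mul_assoc, inv_mul_cancel₀ hn0pos.ne', one_mul]

end Pool.Agent.H25.RC
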